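import Mathlib

/-!
# Average `N`-adic complexity of finite sequences

For every `N ≥ 2` and every `n` we prove

`n/2 - (1 + log 3)/(2 log N) ≤ E_n^fin ≤ n/2 + ((1 + log 3)/2 + log ((2^ω(N) + 3)/2)) / log N`,

where `ω(N)` is the number of distinct primes dividing `N`. So `E_n^fin = n/2 + O(1)` with an
absolute implied constant, and the error is at most `2 / log N` when `N` is prime.
It tends to `0` as `N → ∞`, uniformly in `n`, because `ω(N) = o(log N)`.

Proof. The finite complexity of `(a_0, ..., a_{n-1})` is `log_N` of the least sup norm of a vector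
`(f, g)` with `g > 0` prime to `N` in the lattice `L = {(f, g) : N^n ∣ g α - f}`, where
`α = ∑ a_i N^i`. Counting shows that the shortest nonzero vector of `L` has length `≤ X` for at
most `3 X²` residues `α`; a ranking inequality turns this into a lower bound for the average of
its logarithm. The second basis vector is controlled by the determinant `N^n`, and one reaches a
vector with `g` prime to `N` by adding at most `2^(ω(N)-1)` times the shortest vector, because
`2^ω(N)` consecutive integers cannot be covered by one residue class for each prime factor.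
-/

namespace Pool.Agent.Results.MP_68df70_lc.AverageFinite

open Finset

/-- The partial sum `b_0 + b_1 N + ... + b_{k-1} N^{k-1}` of the `N`-adic number of `b`. -/
def psum (N : ℕ) (b : ℕ → Fin N) (k : ℕ) : ℤ :=
  ∑ i ∈ range k, ((b i : ℕ) : ℤ) * (N : ℤ) ^ i

/-- The `N`-adic number `α = ∑ b_i N^i` of the sequence `b` satisfies `g α = f` in
`Z_N = lim Z/N^k`, i.e. `g (b_0 + ... + b_{k-1} N^{k-1}) ≡ f` modulo `N^k` for every `k`. -/
def HasValue (N : ℕ) (b : ℕ → Fin N) (f g : ℤ) : Prop :=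
  ∀ k : ℕ, (N : ℤ) ^ k ∣ g * psum N b k - f

/-- `N`-adic complexity `λ_N(b) ∈ [0, ∞]` of an infinite `N`-ary sequence `b`. If the `N`-adic number
`α = ∑ b_i N^i` is rational, `α = f/g` in lowest terms with `g > 0`, there is exactly one admissible
pair `(f, g)` and the value is `log_N max(|f|, |g|)`; if `α` is irrational, there is no such pair and
the value is `sInf ∅ = ⊤ = ∞`. -/
noncomputable def lam (N : ℕ) (b : ℕ → Fin N) : EReal :=
  sInf {x : EReal | ∃ f g : ℤ, 0 < g ∧ IsCoprime f g ∧ HasValue N b f g ∧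
    x = ((Real.logb N ((max |f| |g| : ℤ) : ℝ) : ℝ) : EReal)}

/-- `N`-adic complexity of the finite sequence `a = (a_0, ..., a_{n-1})`: the minimum of `λ_N(b)` over
all infinite sequences `b` that extend `a` (part of the main theorem says that it is attained and
finite). -/
noncomputable def lamFin (N n : ℕ) (a : Fin n → Fin N) : EReal :=
  sInf {x : EReal | ∃ b : ℕ → Fin N, (∀ i : Fin n, b i = a i) ∧ x = lam N b}

/-- `E_n^fin`: the average of the `N`-adic complexity over all `N^n` finite sequences of length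
`n`. -/
noncomputable def Efin (N n : ℕ) : ℝ :=
  (∑ a : Fin n → Fin N, (lamFin N n a).toReal) / (N : ℝ) ^ n

theorem psum_succ (N : ℕ) (b : ℕ → Fin N) (k : ℕ) :
    psum N b (k + 1) = psum N b k + ((b k : ℕ) : ℤ) * (N : ℤ) ^ k := by
  unfold psum
  rw [Finset.sum_range_succ]

/-- Every fraction with denominator coprime to `N` is an `N`-adic number. -/
theorem exists_hasValue (N : ℕ) (hN : 2 ≤ N) (f g : ℤ) (hg : IsCoprime g (N : ℤ)) :
    ∃ b : ℕ → Fin N, HasValue N b f g := by
  have hdig : ∀ c : ℤ, ∃ d : Fin N, (N : ℤ) ∣ c - g * ((d : ℕ) : ℤ) := by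
    intro c
    obtain ⟨u, v, huv⟩ := hg
    have hNz : (N : ℤ) ≠ 0 := by positivity
    have h0 : 0 ≤ (c * u) % N := Int.emod_nonneg _ hNz
    have h1 : (c * u) % N < N := Int.emod_lt_of_pos _ (by positivity)
    refine ⟨⟨((c * u) % N).toNat, by omega⟩, ?_⟩
    have h2 : ((((c * u) % N).toNat : ℕ) : ℤ) = (c * u) % N := Int.toNat_of_nonneg h0
    simp only [h2]
    have h3 : (c * u) % N = c * u - N * ((c * u) / N) := by
      have := Int.emod_add_mul_ediv (c * u) N
      linarith
    rw [h3]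
    refine ⟨c * v + g * (c * u / N), ?_⟩
    linear_combination (-c) * huv
  choose dig hdigs using hdig
  set step : ℤ → ℤ := fun c => (c - g * ((dig c : ℕ) : ℤ)) / N with hstep
  have hstep' : ∀ c, (N : ℤ) * step c = c - g * ((dig c : ℕ) : ℤ) := by
    intro c
    rw [hstep]
    exact Int.mul_ediv_cancel' (hdigs c)
  refine ⟨fun i => dig (step^[i] f), ?_⟩
  have key : ∀ k, g * psum N (fun i => dig (step^[i] f)) k - f = -((N : ℤ) ^ k * step^[k] f) := by
    intro k
    induction k with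
    | zero => simp [psum]
    | succ k ih =>
      rw [psum_succ, Function.iterate_succ_apply']
      have h1 := hstep' (step^[k] f)
      have h2 : (N : ℤ) ^ (k + 1) * step (step^[k] f) = (N : ℤ) ^ k * (N * step (step^[k] f)) := by
        rw [pow_succ]; ring
      rw [h2, h1]
      linear_combination ih
  intro k
  rw [key]
  exact (dvd_neg).2 (Dvd.intro _ rfl)

/-- the integer `∑ a_i N^i` -/
def val (N n : ℕ) (a : Fin n → Fin N) : ℕ := ∑ i : Fin n, (a i : ℕ) * N ^ (i : ℕ)

theorem val_lt (N n : ℕ) (a : Fin n → Fin N) : val N n a < N ^ n := by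
  have h := (finFunctionFinEquiv a).2
  rw [finFunctionFinEquiv_apply] at h
  exact h

theorem val_inj (N n : ℕ) (a a' : Fin n → Fin N) (h : val N n a = val N n a') : a = a' := by
  apply finFunctionFinEquiv.injective
  ext
  rw [finFunctionFinEquiv_apply, finFunctionFinEquiv_apply]
  exact h

theorem psum_eq_val (N n : ℕ) (b : ℕ → Fin N) :
    psum N b n = (val N n (fun i => b i) : ℤ) := by
  unfold psum val
  push_cast
  rw [Finset.sum_range]

/-- the good pairs for the residue `α` -/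
def GoodLe (N n : ℕ) (α : ℤ) (k : ℕ) : Prop :=
  ∃ f g : ℤ, 0 < g ∧ IsCoprime g (N : ℤ) ∧ (N : ℤ) ^ n ∣ g * α - f ∧ |f| ≤ k ∧ |g| ≤ k

noncomputable def M (N n : ℕ) (α : ℤ) : ℕ := sInf {k | GoodLe N n α k}

theorem M_le {N n : ℕ} {α : ℤ} {k : ℕ} (h : GoodLe N n α k) : M N n α ≤ k := Nat.sInf_le h

theorem good_one (N n : ℕ) (α : ℤ) : GoodLe N n α (max 1 α.natAbs) := by
  refine ⟨α, 1, one_pos, isCoprime_one_left, by simp, ?_, ?_⟩
  · push_cast
    exact le_max_right _ _
  · push_cast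
    simp

theorem good_M (N n : ℕ) (α : ℤ) : GoodLe N n α (M N n α) :=
  Nat.sInf_mem (s := {k | GoodLe N n α k}) ⟨_, good_one N n α⟩

theorem M_pos (N n : ℕ) (hN : 2 ≤ N) (α : ℤ) : 1 ≤ M N n α := by
  obtain ⟨f, g, h0, _, _, _, h3⟩ := good_M N n α
  rw [abs_of_pos h0] at h3
  have : (1 : ℤ) ≤ M N n α := by linarith
  exact_mod_cast this

/-- The finite complexity is `log_N M`, and it is attained. -/
theorem lamFin_spec (N n : ℕ) (hN : 2 ≤ N) (a : Fin n → Fin N) :
    (∃ b : ℕ → Fin N, (∀ i : Fin n, b i = a i) ∧ lam N b = lamFin N n a) ∧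
      lamFin N n a = ((Real.logb N (M N n (val N n a)) : ℝ) : EReal) := by
  have hN1 : (1 : ℝ) < N := by exact_mod_cast (by omega : 1 < N)
  set α : ℤ := (val N n a : ℤ) with hα
  -- lower bound
  have hlow : ∀ b : ℕ → Fin N, (∀ i : Fin n, b i = a i) →
      ((Real.logb N (M N n α) : ℝ) : EReal) ≤ lam N b := by
    intro b hb
    apply le_sInf
    rintro x ⟨f, g, hg, hfg, hval, rfl⟩
    rw [EReal.coe_le_coe_iff]
    have hcop : IsCoprime g (N : ℤ) := by
      rw [Int.isCoprime_iff_gcd_eq_one]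
      by_contra hcon
      obtain ⟨p, hp, hpd⟩ := Nat.exists_prime_and_dvd hcon
      have hpg : (p : ℤ) ∣ g := (Int.natCast_dvd_natCast.2 hpd).trans (Int.gcd_dvd_left _ _)
      have hpN : (p : ℤ) ∣ (N : ℤ) := (Int.natCast_dvd_natCast.2 hpd).trans (Int.gcd_dvd_right _ _)
      have h1 := hval 1
      rw [pow_one] at h1
      have h2 : (p : ℤ) ∣ f := by
        have := hpN.trans h1
        exact (dvd_sub_right (Dvd.dvd.mul_right hpg _)).1 this
      have h3 := hfg.isUnit_of_dvd' h2 hpg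
      have := Int.isUnit_iff.1 h3
      have := hp.two_le
      omega
    have hgood : GoodLe N n α (max |f| |g|).toNat := by
      refine ⟨f, g, hg, hcop, ?_, ?_, ?_⟩
      · have := hval n
        rw [psum_eq_val] at this
        have e : (fun i : Fin n => b i) = a := funext hb
        rw [e] at this
        exact this
      · rw [Int.toNat_of_nonneg (le_max_of_le_left (abs_nonneg _))]
        exact le_max_left _ _
      · rw [Int.toNat_of_nonneg (le_max_of_le_left (abs_nonneg _))]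
        exact le_max_right _ _
    have h1 := M_le hgood
    apply Real.logb_le_logb_of_le hN1
    · have := M_pos N n hN α
      positivity
    · have h2 : (M N n α : ℤ) ≤ max |f| |g| := by
        have : (M N n α : ℤ) ≤ ((max |f| |g|).toNat : ℤ) := by exact_mod_cast h1
        rwa [Int.toNat_of_nonneg (le_max_of_le_left (abs_nonneg _))] at this
      exact_mod_cast h2
  -- upper bound
  obtain ⟨f, g, hg, hcop, hdvd, hf, hgM⟩ := good_M N n α
  have hMmax : max |f| |g| = (M N n α : ℤ) := by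
    apply le_antisymm (max_le hf hgM)
    have hgood : GoodLe N n α (max |f| |g|).toNat := by
      refine ⟨f, g, hg, hcop, hdvd, ?_, ?_⟩
      · rw [Int.toNat_of_nonneg (le_max_of_le_left (abs_nonneg _))]
        exact le_max_left _ _
      · rw [Int.toNat_of_nonneg (le_max_of_le_left (abs_nonneg _))]
        exact le_max_right _ _
    have h1 := M_le hgood
    have : (M N n α : ℤ) ≤ ((max |f| |g|).toNat : ℤ) := by exact_mod_cast h1
    rwa [Int.toNat_of_nonneg (le_max_of_le_left (abs_nonneg _))] at this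
  have hfg : IsCoprime f g := by
    rw [Int.isCoprime_iff_gcd_eq_one]
    by_contra hcon
    obtain ⟨p, hp, hpd⟩ := Nat.exists_prime_and_dvd hcon
    obtain ⟨f', hf'⟩ : (p : ℤ) ∣ f := (Int.natCast_dvd_natCast.2 hpd).trans (Int.gcd_dvd_left _ _)
    obtain ⟨g', hg'⟩ : (p : ℤ) ∣ g := (Int.natCast_dvd_natCast.2 hpd).trans (Int.gcd_dvd_right _ _)
    have hp0 : (0 : ℤ) < p := by exact_mod_cast hp.pos
    have hp2 : (2 : ℤ) ≤ p := by exact_mod_cast hp.two_le
    have hg'pos : 0 < g' := by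
      by_contra h
      push Not at h
      have : g ≤ 0 := by rw [hg']; exact mul_nonpos_of_nonneg_of_nonpos hp0.le h
      linarith
    have hcop' : IsCoprime g' (N : ℤ) := by
      rw [hg'] at hcop
      exact hcop.of_mul_left_right
    have hpcop : IsCoprime (p : ℤ) ((N : ℤ) ^ n) := by
      rw [hg'] at hcop
      exact hcop.of_mul_left_left.pow_right
    have hdvd' : (N : ℤ) ^ n ∣ g' * α - f' := by
      have e : g * α - f = p * (g' * α - f') := by rw [hg', hf']; ring
      rw [e] at hdvd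
      exact (hpcop.symm).dvd_of_dvd_mul_left hdvd
    have hMp := M_pos N n hN α
    have hgood : GoodLe N n α (M N n α - 1) := by
      refine ⟨f', g', hg'pos, hcop', hdvd', ?_, ?_⟩
      · have e : |f| = p * |f'| := by rw [hf', abs_mul, Nat.abs_cast]
        have := abs_nonneg f'
        have : 2 * |f'| ≤ M N n α := by nlinarith
        omega
      · have e : |g| = p * |g'| := by rw [hg', abs_mul, Nat.abs_cast]
        have := abs_nonneg g'
        have : 2 * |g'| ≤ M N n α := by nlinarith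
        omega
    have := M_le hgood
    omega
  obtain ⟨b, hb⟩ := exists_hasValue N hN f g hcop
  have hba : ∀ i : Fin n, b i = a i := by
    have h1 := hb n
    have h2 : (N : ℤ) ^ n ∣ g * (psum N b n - α) := by
      have := dvd_sub h1 hdvd
      have e : g * (psum N b n - α) = g * psum N b n - f - (g * α - f) := by ring
      rw [e]; exact this
    have h3 : (N : ℤ) ^ n ∣ psum N b n - α :=
      (hcop.pow_right (n := n)).symm.dvd_of_dvd_mul_left h2
    rw [psum_eq_val, hα] at h3
    have h4 : val N n (fun i => b i) = val N n a := by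
      have l1 := val_lt N n (fun i => b i)
      have l2 := val_lt N n a
      have h5 : ((val N n (fun i => b i) : ℕ) : ℤ) % ((N ^ n : ℕ) : ℤ)
          = ((val N n a : ℕ) : ℤ) % ((N ^ n : ℕ) : ℤ) := by
        apply Int.emod_eq_emod_iff_emod_sub_eq_zero.2
        apply Int.emod_eq_zero_of_dvd
        push_cast
        exact h3
      have h6 : val N n (fun i => b i) % (N ^ n) = val N n a % (N ^ n) := by exact_mod_cast h5
      rwa [Nat.mod_eq_of_lt l1, Nat.mod_eq_of_lt l2] at h6
    have h7 := val_inj N n _ _ h4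
    intro i
    exact congrFun h7 i
  have hup : lam N b ≤ ((Real.logb N (M N n α) : ℝ) : EReal) := by
    apply sInf_le
    refine ⟨f, g, hg, hfg, hb, ?_⟩
    rw [hMmax]
    push_cast
    rfl
  have hfin1 : lamFin N n a ≤ lam N b := sInf_le ⟨b, hba, rfl⟩
  have hfin2 : ((Real.logb N (M N n α) : ℝ) : EReal) ≤ lamFin N n a := by
    apply le_sInf
    rintro x ⟨b', hb', rfl⟩
    exact hlow b' hb'
  have e1 : lam N b = ((Real.logb N (M N n α) : ℝ) : EReal) := le_antisymm hup (hlow b hba)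
  have e2 : lamFin N n a = ((Real.logb N (M N n α) : ℝ) : EReal) :=
    le_antisymm (hfin1.trans hup) hfin2
  exact ⟨⟨b, hba, by rw [e1, e2]⟩, e2⟩

/-! ### A ranking inequality -/

/-- `∏_{a ∈ s} #{b ∈ s : h b ≤ h a} ≥ (#s)!`. -/
theorem factorial_le_prod_rank {ι : Type*} [DecidableEq ι] (h : ι → ℕ) (s : Finset ι) :
    (s.card).factorial ≤ ∏ a ∈ s, (s.filter (fun b => h b ≤ h a)).card := by
  classical
  induction s using Finset.induction_on_max_value h with
  | empty => simp
  | insert a s ha hmax ih =>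
    rw [Finset.prod_insert ha, Finset.card_insert_of_notMem ha, Nat.factorial_succ]
    have h1 : (insert a s).filter (fun b => h b ≤ h a) = insert a s := by
      apply Finset.filter_true_of_mem
      intro x hx
      rcases Finset.mem_insert.1 hx with rfl | hx
      · exact le_rfl
      · exact hmax x hx
    rw [h1, Finset.card_insert_of_notMem ha]
    apply Nat.mul_le_mul le_rfl
    refine ih.trans (Finset.prod_le_prod' ?_)
    intro i hi
    apply Finset.card_le_card
    apply Finset.filter_subset_filter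
    exact Finset.subset_insert _ _

/-- `log n! ≥ n log n - n`. -/
theorem log_factorial_ge (n : ℕ) (hn : 0 < n) :
    (n : ℝ) * Real.log n - n ≤ Real.log (n.factorial) := by
  have h := Real.pow_div_factorial_le_exp (x := (n : ℝ)) (by positivity) n
  have hf : (0 : ℝ) < n.factorial := by exact_mod_cast Nat.factorial_pos n
  have hn' : (0 : ℝ) < n := by exact_mod_cast hn
  have h2 : (n : ℝ) ^ n ≤ Real.exp n * n.factorial := by
    rwa [div_le_iff₀ hf] at h
  have h3 := Real.log_le_log (by positivity) h2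
  rw [Real.log_pow, Real.log_mul (Real.exp_pos _).ne' hf.ne', Real.log_exp] at h3
  linarith

/-- If at most `3 X²` elements have `h ≤ X` for every `X ≥ 1`, then the average of `log h` is large. -/
theorem sum_log_ge {ι : Type*} [DecidableEq ι] (h : ι → ℕ) (s : Finset ι) (hs : 0 < s.card)
    (hpos : ∀ a ∈ s, 1 ≤ h a)
    (hc : ∀ X : ℕ, 1 ≤ X → (s.filter (fun b => h b ≤ X)).card ≤ 3 * X ^ 2) :
    (s.card : ℝ) * ((Real.log s.card - 1 - Real.log 3) / 2) ≤ ∑ a ∈ s, Real.log (h a) := by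
  have h1 := factorial_le_prod_rank h s
  have h2 : (s.card).factorial ≤ ∏ a ∈ s, (3 * (h a) ^ 2) :=
    h1.trans (Finset.prod_le_prod' (fun a ha => hc _ (hpos a ha)))
  have h3 : ((s.card).factorial : ℝ) ≤ ∏ a ∈ s, (3 * (h a : ℝ) ^ 2) := by exact_mod_cast h2
  have h4 := Real.log_le_log (by exact_mod_cast Nat.factorial_pos _) h3
  have hne : ∀ a ∈ s, (h a : ℝ) ≠ 0 := fun a ha => by
    have := hpos a ha
    positivity
  rw [Real.log_prod (fun a ha => by have := hne a ha; positivity)] at h4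
  have h5 : ∑ a ∈ s, Real.log (3 * (h a : ℝ) ^ 2) = s.card * Real.log 3 + 2 * ∑ a ∈ s, Real.log (h a) := by
    rw [Finset.mul_sum]
    rw [← nsmul_eq_mul, ← Finset.sum_const, ← Finset.sum_add_distrib]
    apply Finset.sum_congr rfl
    intro a ha
    rw [Real.log_mul (by norm_num) (by have := hne a ha; positivity), Real.log_pow]
    norm_num
  rw [h5] at h4
  have h6 := log_factorial_ge s.card hs
  nlinarith

/-! ### Integers coprime to `N` in short progressions -/

theorem exp_sum_zero {ι : Type*} [DecidableEq ι] (J : Finset ι) (w : ι → ℂ)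
    (hw : ∀ j ∈ J, w j ≠ 0) (x0 : ℤ) : ∀ (c : ι → ℂ),
    (∀ t : ℕ, t < J.card → ∑ j ∈ J, c j * w j ^ (x0 + t) = 0) →
    ∀ x : ℤ, ∑ j ∈ J, c j * w j ^ x = 0 := by
  induction J using Finset.induction_on with
  | empty => intro c _ x; simp
  | insert a J ha ih =>
    intro c h x
    have hwJ : ∀ j ∈ J, w j ≠ 0 := fun j hj => hw j (Finset.mem_insert_of_mem hj)
    have hwa : w a ≠ 0 := hw a (Finset.mem_insert_self _ _)
    have key : ∀ y : ℤ, ∑ j ∈ J, (c j * (w j - w a)) * w j ^ y
        = (∑ j ∈ insert a J, c j * w j ^ (y + 1)) - w a * ∑ j ∈ insert a J, c j * w j ^ y := by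
      intro y
      rw [Finset.sum_insert ha, Finset.sum_insert ha, mul_add, Finset.mul_sum]
      have e1 : ∑ j ∈ J, c j * w j ^ (y + 1) = ∑ j ∈ J, c j * (w j * w j ^ y) := by
        apply Finset.sum_congr rfl
        intro j hj
        rw [zpow_add_one₀ (hwJ j hj)]
        ring
      rw [e1, zpow_add_one₀ hwa]
      have e2 : ∑ j ∈ J, c j * (w j - w a) * w j ^ y
          = ∑ j ∈ J, c j * (w j * w j ^ y) - ∑ j ∈ J, w a * (c j * w j ^ y) := by
        rw [← Finset.sum_sub_distrib]
        apply Finset.sum_congr rfl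
        intro j _
        ring
      rw [e2]
      ring
    have hcard : (insert a J).card = J.card + 1 := Finset.card_insert_of_notMem ha
    have h1 : ∀ y : ℤ, ∑ j ∈ J, (c j * (w j - w a)) * w j ^ y = 0 := by
      apply ih hwJ
      intro t ht
      rw [key]
      have a1 := h t (by omega)
      have a2 := h (t + 1) (by omega)
      rw [a1]
      push_cast at a2
      rw [← add_assoc] at a2
      rw [a2]
      simp
    have h2 : ∀ y : ℤ, (∑ j ∈ insert a J, c j * w j ^ (y + 1))
        = w a * ∑ j ∈ insert a J, c j * w j ^ y := by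
      intro y
      have := key y
      rw [h1 y] at this
      exact (sub_eq_zero.1 this.symm)
    have h0 : ∑ j ∈ insert a J, c j * w j ^ x0 = 0 := by
      have := h 0 (by omega)
      simpa using this
    refine Int.inductionOn' x x0 h0 ?_ ?_
    · intro k _ hk
      rw [h2 k, hk, mul_zero]
    · intro k _ hk
      have := h2 (k - 1)
      rw [sub_add_cancel, hk] at this
      rcases mul_eq_zero.1 this.symm with h' | h'
      · exact absurd h' hwa
      · exact h'

/-- If the residue classes `a p` modulo `p` (`p ∈ S`, all `p ≥ 1`) cover `2 ^ #S` consecutive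
integers, they cover all integers. -/
theorem covers_all (S : Finset ℕ) (hS : ∀ p ∈ S, p ≠ 0) (a : ℕ → ℤ) (x0 : ℤ)
    (h : ∀ t : ℕ, t < 2 ^ S.card → ∃ p ∈ S, (p : ℤ) ∣ x0 + t - a p) (x : ℤ) :
    ∃ p ∈ S, (p : ℤ) ∣ x - a p := by
  classical
  set z : ℕ → ℂ := fun p => Complex.exp (2 * Real.pi * Complex.I / p) with hz
  have hprim : ∀ p ∈ S, IsPrimitiveRoot (z p) p := fun p hp =>
    Complex.isPrimitiveRoot_exp p (hS p hp)
  have hz0 : ∀ p, z p ≠ 0 := fun p => Complex.exp_ne_zero _
  have expand : ∀ y : ℤ, ∏ p ∈ S, (1 - z p ^ (y - a p))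
      = ∑ I ∈ S.powerset, (∏ p ∈ I, (-(z p ^ (-(a p))))) * (∏ p ∈ I, z p) ^ y := by
    intro y
    have : ∏ p ∈ S, (1 - z p ^ (y - a p)) = ∏ p ∈ S, (1 + (-(z p ^ (-(a p))) * z p ^ y)) := by
      apply Finset.prod_congr rfl
      intro p _
      rw [sub_eq_add_neg y, zpow_add₀ (hz0 p)]
      ring
    rw [this, Finset.prod_one_add]
    apply Finset.sum_congr rfl
    intro I _
    rw [Finset.prod_mul_distrib, Finset.prod_zpow]
  have iff0 : ∀ y : ℤ, (∏ p ∈ S, (1 - z p ^ (y - a p)) = 0) ↔ ∃ p ∈ S, (p : ℤ) ∣ y - a p := by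
    intro y
    rw [Finset.prod_eq_zero_iff]
    constructor
    · rintro ⟨p, hp, h1⟩
      exact ⟨p, hp, ((hprim p hp).zpow_eq_one_iff_dvd _).1 (sub_eq_zero.1 h1).symm⟩
    · rintro ⟨p, hp, h1⟩
      exact ⟨p, hp, sub_eq_zero.2 (((hprim p hp).zpow_eq_one_iff_dvd _).2 h1).symm⟩
  rw [← iff0, expand]
  apply exp_sum_zero S.powerset (fun I => ∏ p ∈ I, z p) _ x0
  · intro t ht
    rw [Finset.card_powerset] at ht
    have := (iff0 (x0 + t)).2 (h t ht)
    rw [expand] at this
    exact this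
  · intro I _
    exact Finset.prod_ne_zero_iff.2 (fun p _ => hz0 p)

/-- In every block of `2 ^ ω(N)` consecutive integers there is `c` with `g₂ + c g₁` coprime to
`N`, if no prime factor of `N` divides both `g₁` and `g₂`. -/
theorem exists_coprime (N : ℕ) (hN : N ≠ 0) (g1 g2 : ℤ)
    (h : ∀ p : ℕ, p.Prime → p ∣ N → (p : ℤ) ∣ g1 → ¬ (p : ℤ) ∣ g2) (x0 : ℤ) :
    ∃ c : ℤ, x0 ≤ c ∧ c < x0 + 2 ^ N.primeFactors.card ∧ IsCoprime (g2 + c * g1) (N : ℤ) := by
  classical
  by_contra hcon
  push Not at hcon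
  have not_cop : ∀ y : ℤ, ¬ IsCoprime y (N : ℤ) → ∃ p ∈ N.primeFactors, (p : ℤ) ∣ y := by
    intro y hy
    rw [Int.isCoprime_iff_gcd_eq_one] at hy
    obtain ⟨p, hp, hpd⟩ := Nat.exists_prime_and_dvd hy
    refine ⟨p, ?_, ?_⟩
    · rw [Nat.mem_primeFactors]
      refine ⟨hp, ?_, hN⟩
      have : (p : ℤ) ∣ (N : ℤ) := (Int.natCast_dvd_natCast.2 hpd).trans (Int.gcd_dvd_right _ _)
      exact_mod_cast this
    · exact (Int.natCast_dvd_natCast.2 hpd).trans (Int.gcd_dvd_left _ _)
  -- the primes not dividing `g1`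
  set S : Finset ℕ := N.primeFactors.filter (fun p : ℕ => ¬ (p : ℤ) ∣ g1) with hSdef
  have hSp : ∀ p ∈ S, p.Prime := fun p hp => Nat.prime_of_mem_primeFactors (Finset.mem_filter.1 hp).1
  have hinv : ∀ p : ℕ, ∃ a : ℤ, p ∈ S → ∀ c : ℤ, ((p : ℤ) ∣ g2 + c * g1 ↔ (p : ℤ) ∣ c - a) := by
    intro p
    by_cases hp : p ∈ S
    · have hpp := hSp p hp
      have hg1 : ¬ (p : ℤ) ∣ g1 := (Finset.mem_filter.1 hp).2
      have hpi : Prime (p : ℤ) := Nat.prime_iff_prime_int.1 hpp
      have hcop : IsCoprime (p : ℤ) g1 := (Prime.coprime_iff_not_dvd hpi).2 hg1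
      obtain ⟨u, v, huv⟩ := hcop
      refine ⟨-(g2 * v), fun _ c => ?_⟩
      constructor
      · intro h1
        have : c - -(g2 * v) = v * (g2 + c * g1) + c * u * p := by
          have : c = c * (u * p + v * g1) := by rw [huv, mul_one]
          calc c - -(g2 * v) = c * (u * p + v * g1) + g2 * v := by rw [huv]; ring
            _ = v * (g2 + c * g1) + c * u * p := by ring
        rw [this]
        exact dvd_add (Dvd.dvd.mul_left h1 _) (Dvd.intro_left _ rfl)
      · intro h1
        have : g2 + c * g1 = g1 * (c - -(g2 * v)) + g2 * u * p := by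
          calc g2 + c * g1 = g2 * (u * p + v * g1) + c * g1 := by rw [huv]; ring
            _ = g1 * (c - -(g2 * v)) + g2 * u * p := by ring
        rw [this]
        exact dvd_add (Dvd.dvd.mul_left h1 _) (Dvd.intro_left _ rfl)
    · exact ⟨0, fun h => absurd h hp⟩
  choose a ha using hinv
  have hScard : S.card ≤ N.primeFactors.card := Finset.card_filter_le _ _
  -- every integer is bad
  have hall : ∀ x : ℤ, ∃ p ∈ S, (p : ℤ) ∣ x - a p := by
    apply covers_all S (fun p hp => (hSp p hp).ne_zero) a x0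
    intro t ht
    have ht' : (t : ℤ) < 2 ^ N.primeFactors.card := by
      calc (t : ℤ) < ((2 ^ S.card : ℕ) : ℤ) := by exact_mod_cast ht
        _ ≤ 2 ^ N.primeFactors.card := by
          push_cast
          exact pow_le_pow_right₀ (by norm_num) hScard
    obtain ⟨p, hp, hpd⟩ := not_cop _ (hcon (x0 + t) (by omega) (by omega))
    have hpS : p ∈ S := by
      rw [hSdef, Finset.mem_filter]
      refine ⟨hp, fun hpg => ?_⟩
      have hpp := Nat.prime_of_mem_primeFactors hp
      have := h p hpp (Nat.dvd_of_mem_primeFactors hp) hpg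
      apply this
      have h3 : (p : ℤ) ∣ (x0 + t) * g1 := Dvd.dvd.mul_left hpg _
      exact (dvd_add_left h3).1 hpd
    exact ⟨p, hpS, (ha p hpS _).1 hpd⟩
  -- but the product of the primes not dividing `g2` is good
  set c : ℤ := ((∏ p ∈ N.primeFactors.filter (fun p : ℕ => ¬ (p : ℤ) ∣ g2), p : ℕ) : ℤ) with hc
  obtain ⟨p, hp, hpd⟩ := hall c
  have hbad := (ha p hp c).2 hpd
  have hpp := hSp p hp
  have hpi : Prime (p : ℤ) := Nat.prime_iff_prime_int.1 hpp
  have hpN : p ∈ N.primeFactors := (Finset.mem_filter.1 hp).1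
  by_cases hg2 : (p : ℤ) ∣ g2
  · have h1 : (p : ℤ) ∣ c * g1 := (dvd_add_right hg2).1 hbad
    rcases hpi.dvd_or_dvd h1 with h2 | h2
    · rw [hc] at h2
      have h3 : p ∣ ∏ p ∈ N.primeFactors.filter (fun p : ℕ => ¬ (p : ℤ) ∣ g2), p := by exact_mod_cast h2
      rw [Prime.dvd_finsetProd_iff (Nat.prime_iff.1 hpp)] at h3
      obtain ⟨q, hq, hpq⟩ := h3
      have hqp := Nat.prime_of_mem_primeFactors (Finset.mem_filter.1 hq).1
      have : p = q := (Nat.prime_dvd_prime_iff_eq hpp hqp).1 hpq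
      subst this
      exact (Finset.mem_filter.1 hq).2 hg2
    · exact (Finset.mem_filter.1 hp).2 h2
  · have h1 : (p : ℤ) ∣ c := by
      rw [hc]
      apply Int.natCast_dvd_natCast.2
      apply Finset.dvd_prod_of_mem
      rw [Finset.mem_filter]
      exact ⟨hpN, hg2⟩
    apply hg2
    exact (dvd_add_left (Dvd.dvd.mul_right h1 g1)).1 hbad

/-! ### Short vectors of the lattices `{(f, g) : Q ∣ g α - f}` -/

/-- the lattice has a nonzero vector of sup norm at most `k` -/
def Short (Q : ℕ) (α : ℤ) (k : ℕ) : Prop :=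
  ∃ f g : ℤ, (f ≠ 0 ∨ g ≠ 0) ∧ (Q : ℤ) ∣ g * α - f ∧ |f| ≤ k ∧ |g| ≤ k

/-- length of the shortest nonzero vector -/
noncomputable def ell (Q : ℕ) (α : ℤ) : ℕ := sInf {k | Short Q α k}

theorem short_Q (Q : ℕ) (hQ : 0 < Q) (α : ℤ) : Short Q α Q :=
  ⟨Q, 0, Or.inl (by exact_mod_cast hQ.ne'), by simp, by simp, by simp⟩

theorem short_ell (Q : ℕ) (hQ : 0 < Q) (α : ℤ) : Short Q α (ell Q α) :=
  Nat.sInf_mem (s := {k | Short Q α k}) ⟨Q, short_Q Q hQ α⟩

theorem ell_le {Q : ℕ} {α : ℤ} {k : ℕ} (h : Short Q α k) : ell Q α ≤ k := Nat.sInf_le h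

theorem Short.mono {Q : ℕ} {α : ℤ} {k k' : ℕ} (h : Short Q α k) (hk : k ≤ k') : Short Q α k' := by
  obtain ⟨f, g, h0, h1, h2, h3⟩ := h
  have : (k : ℤ) ≤ k' := by exact_mod_cast hk
  exact ⟨f, g, h0, h1, h2.trans this, h3.trans this⟩

theorem ell_pos (Q : ℕ) (hQ : 0 < Q) (α : ℤ) : 1 ≤ ell Q α := by
  obtain ⟨f, g, h0, _, h2, h3⟩ := short_ell Q hQ α
  by_contra hlt
  have he : ell Q α = 0 := by omega
  rw [he] at h2 h3
  rcases h0 with h | h
  · apply h
    have := abs_nonneg f
    exact abs_eq_zero.1 (le_antisymm (by simpa using h2) this)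
  · apply h
    have := abs_nonneg g
    exact abs_eq_zero.1 (le_antisymm (by simpa using h3) this)

/-- Thue's lemma: the shortest vector has norm at most `√Q`. -/
theorem ell_sq_le (Q : ℕ) (hQ : 0 < Q) (α : ℤ) : (ell Q α) ^ 2 ≤ Q := by
  set s := Nat.sqrt Q with hs
  have hs1 : s * s ≤ Q := Nat.sqrt_le Q
  have hs2 : Q < (s + 1) * (s + 1) := Nat.lt_succ_sqrt Q
  have hshort : Short Q α s := by
    have : NeZero Q := ⟨hQ.ne'⟩
    obtain ⟨x, hx, y, hy, hxy, he⟩ := Finset.exists_ne_map_eq_of_card_lt_of_maps_to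
      (s := (Finset.range (s + 1)) ×ˢ (Finset.range (s + 1))) (t := (Finset.univ : Finset (ZMod Q)))
      (f := fun v => ((v.2 : ZMod Q) * (α : ZMod Q) - (v.1 : ZMod Q)))
      (by rw [Finset.card_product, Finset.card_range, Finset.card_univ, ZMod.card]; exact hs2)
      (fun _ _ => Finset.mem_univ _)
    simp only [Finset.mem_product, Finset.mem_range] at hx hy
    refine ⟨(x.1 : ℤ) - y.1, (x.2 : ℤ) - y.2, ?_, ?_, ?_, ?_⟩
    · by_contra hcon
      push Not at hcon
      apply hxy
      ext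
      · have := hcon.1; omega
      · have := hcon.2; omega
    · rw [← ZMod.intCast_zmod_eq_zero_iff_dvd]
      push_cast
      linear_combination he
    · rw [abs_le]; constructor <;> omega
    · rw [abs_le]; constructor <;> omega
  have h1 := ell_le hshort
  calc (ell Q α) ^ 2 ≤ s ^ 2 := Nat.pow_le_pow_left h1 2
    _ = s * s := sq s
    _ ≤ Q := hs1

/-- Rounding. -/
theorem exists_round (a b : ℤ) (hb : b ≠ 0) : ∃ t : ℤ, 2 * |a - t * b| ≤ |b| := by
  refine ⟨round ((a : ℚ) / b), ?_⟩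
  have h1 := abs_sub_round ((a : ℚ) / b)
  have hb' : (0 : ℚ) < |(b : ℚ)| := by
    rw [abs_pos]; exact_mod_cast hb
  have h2 : (a : ℚ) - round ((a : ℚ) / b) * b = ((a : ℚ) / b - round ((a : ℚ) / b)) * b := by
    have : (b : ℚ) ≠ 0 := by exact_mod_cast hb
    field_simp
  have h3 : 2 * |(a : ℚ) - round ((a : ℚ) / b) * b| ≤ |(b : ℚ)| := by
    rw [h2, abs_mul]
    nlinarith
  exact_mod_cast h3

/-- A lattice vector whose second coordinate is coprime to `N`, of controlled size. -/
theorem exists_good (N n : ℕ) (hN : 2 ≤ N) (α : ℤ) :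
    ∃ f g : ℤ, 0 < g ∧ IsCoprime g (N : ℤ) ∧ ((N : ℤ) ^ n) ∣ g * α - f ∧
      2 * (ell (N ^ n) α) * |f| ≤ (3 + 2 ^ N.primeFactors.card) * (N : ℤ) ^ n ∧
      2 * (ell (N ^ n) α) * |g| ≤ (3 + 2 ^ N.primeFactors.card) * (N : ℤ) ^ n := by
  have hQ : 0 < N ^ n := by positivity
  set Q : ℕ := N ^ n with hQdef
  have hQz : (N : ℤ) ^ n = (Q : ℤ) := by rw [hQdef]; push_cast; rfl
  rw [hQz]
  set l := ell Q α with hl
  have hl1 : 1 ≤ l := ell_pos Q hQ α
  have hl2 : l ^ 2 ≤ Q := ell_sq_le Q hQ α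
  obtain ⟨f1, g1, hne, hdvd, hf1, hg1⟩ := short_ell Q hQ α
  rw [← hl] at hf1 hg1
  obtain ⟨k1', hk1'⟩ := hdvd
  -- f1 = g1 α + Q k1
  set k1 : ℤ := -k1' with hk1
  have hf1eq : f1 = g1 * α + Q * k1 := by rw [hk1]; linarith
  -- max |f1| |g1| = l
  have hmax : |f1| = l ∨ |g1| = l := by
    by_contra hcon
    push Not at hcon
    have h1 : |f1| < l := lt_of_le_of_ne hf1 hcon.1
    have h2 : |g1| < l := lt_of_le_of_ne hg1 hcon.2
    have : Short Q α (l - 1) := ⟨f1, g1, hne, ⟨k1', hk1'⟩, by omega, by omega⟩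
    have := ell_le this
    omega
  -- primitivity
  have hcop : IsCoprime g1 k1 := by
    rw [Int.isCoprime_iff_gcd_eq_one]
    by_contra hcon
    obtain ⟨p, hp, hpd⟩ := Nat.exists_prime_and_dvd hcon
    obtain ⟨g', hg'⟩ : (p : ℤ) ∣ g1 := (Int.natCast_dvd_natCast.2 hpd).trans (Int.gcd_dvd_left _ _)
    obtain ⟨k', hk'⟩ : (p : ℤ) ∣ k1 := (Int.natCast_dvd_natCast.2 hpd).trans (Int.gcd_dvd_right _ _)
    have hp0 : (p : ℤ) ≠ 0 := by exact_mod_cast hp.ne_zero
    have hp2 : (2 : ℤ) ≤ p := by exact_mod_cast hp.two_le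
    have hf' : f1 = p * (g' * α + Q * k') := by rw [hf1eq, hg', hk']; ring
    set f' := g' * α + Q * k' with hf'def
    have hsh : Short Q α (l - 1) := by
      refine ⟨f', g', ?_, ⟨-k', by rw [hf'def]; ring⟩, ?_, ?_⟩
      · rcases hne with h | h
        · left; rintro h0; apply h; rw [hf', h0, mul_zero]
        · right; rintro h0; apply h; rw [hg', h0, mul_zero]
      · have e : |f1| = p * |f'| := by rw [hf', abs_mul, Nat.abs_cast]
        have := abs_nonneg f'
        have : 2 * |f'| ≤ l := by nlinarith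
        omega
      · have e : |g1| = p * |g'| := by rw [hg', abs_mul, Nat.abs_cast]
        have := abs_nonneg g'
        have : 2 * |g'| ≤ l := by nlinarith
        omega
    have := ell_le hsh
    omega
  obtain ⟨u, w, huw⟩ := hcop
  -- second basis vector
  set g2 : ℤ := w with hg2
  set k2 : ℤ := -u with hk2
  set f2 : ℤ := g2 * α + Q * k2 with hf2
  have hdet : f1 * g2 - f2 * g1 = Q := by
    rw [hf1eq, hf2, hk2, hg2]
    linear_combination (Q : ℤ) * huw
  have hlpos : (0 : ℤ) < l := by exact_mod_cast hl1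
  have hlQ : (l : ℤ) * l ≤ Q := by
    have : l * l ≤ Q := by rw [← sq]; exact hl2
    exact_mod_cast this
  -- reduction
  obtain ⟨t, ht1, ht2⟩ : ∃ t : ℤ, 2 * l * |f2 - t * f1| ≤ 2 * Q + l * l ∧
      2 * l * |g2 - t * g1| ≤ 2 * Q + l * l := by
    rcases hmax with hm | hm
    · have hf10 : f1 ≠ 0 := by
        intro h0; rw [h0, abs_zero] at hm; omega
      obtain ⟨t, ht⟩ := exists_round f2 f1 hf10
      refine ⟨t, ?_, ?_⟩
      · rw [hm] at ht
        nlinarith [abs_nonneg (f2 - t * f1)]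
      · have e : f1 * (g2 - t * g1) = Q + (f2 - t * f1) * g1 := by linear_combination hdet
        have e2 : (l : ℤ) * |g2 - t * g1| ≤ Q + |f2 - t * f1| * |g1| := by
          rw [← hm, ← abs_mul, e]
          refine (abs_add_le _ _).trans ?_
          rw [abs_mul, abs_of_nonneg (by positivity : (0 : ℤ) ≤ (Q : ℤ))]
        rw [hm] at ht
        nlinarith [abs_nonneg (f2 - t * f1), abs_nonneg g1]
    · have hg10 : g1 ≠ 0 := by
        intro h0; rw [h0, abs_zero] at hm; omega
      obtain ⟨t, ht⟩ := exists_round g2 g1 hg10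
      refine ⟨t, ?_, ?_⟩
      · have e : g1 * (f2 - t * f1) = -Q + f1 * (g2 - t * g1) := by linear_combination -hdet
        have e2 : (l : ℤ) * |f2 - t * f1| ≤ Q + |f1| * |g2 - t * g1| := by
          rw [← hm, ← abs_mul, e]
          refine (abs_add_le _ _).trans ?_
          rw [abs_mul, abs_neg, abs_of_nonneg (by positivity : (0 : ℤ) ≤ (Q : ℤ))]
        rw [hm] at ht
        nlinarith [abs_nonneg (g2 - t * g1), abs_nonneg f1]
      · rw [hm] at ht
        nlinarith [abs_nonneg (g2 - t * g1)]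
  set f2' := f2 - t * f1 with hf2'
  set g2' := g2 - t * g1 with hg2'
  obtain ⟨c, hc1, hc2, hc3⟩ := exists_coprime N (by omega) g1 g2' (by
    intro p hp _ hpg hpg'
    have h1 : (p : ℤ) ∣ g2 := by
      have : g2 = g2' + t * g1 := by rw [hg2']; ring
      rw [this]
      exact dvd_add hpg' (Dvd.dvd.mul_left hpg _)
    have h2 : (p : ℤ) ∣ 1 := by
      rw [← huw]
      exact dvd_add (Dvd.dvd.mul_left hpg _) (Dvd.dvd.mul_right h1 _)
    have h3 : (p : ℤ) ≤ 1 := Int.le_of_dvd one_pos h2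
    have := hp.two_le
    omega) (-(2 ^ (N.primeFactors.card - 1)))
  have hw1 : 1 ≤ N.primeFactors.card := by
    rw [Nat.one_le_iff_ne_zero, Finset.card_ne_zero, Nat.nonempty_primeFactors]
    omega
  have hpow : (2 : ℤ) ^ N.primeFactors.card = 2 * 2 ^ (N.primeFactors.card - 1) := by
    rw [← pow_succ']
    congr 1
    omega
  have hcabs : |c| ≤ 2 ^ (N.primeFactors.card - 1) := by
    rw [abs_le]
    constructor
    · exact hc1
    · rw [hpow] at hc2; linarith
  set P : ℤ := 2 ^ (N.primeFactors.card - 1) with hP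
  have hP0 : 0 ≤ P := by positivity
  rw [hpow]
  have hg_ne : g2' + c * g1 ≠ 0 := by
    intro h0
    rw [h0, isCoprime_zero_left, Int.isUnit_iff] at hc3
    omega
  have hdvd2 : (Q : ℤ) ∣ (g2' + c * g1) * α - (f2' + c * f1) := by
    refine ⟨-(k2 - t * k1 + c * k1), ?_⟩
    rw [hf2', hg2', hf2, hf1eq]
    ring
  have hbf : 2 * l * |f2' + c * f1| ≤ (3 + 2 * P) * Q := by
    have h1 : |f2' + c * f1| ≤ |f2'| + |c| * |f1| := by
      rw [← abs_mul]; exact abs_add_le _ _
    have h2 : |c| * |f1| ≤ P * l := mul_le_mul hcabs hf1 (abs_nonneg _) hP0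
    have h3 : 2 * (l : ℤ) * |f2' + c * f1| ≤ 2 * l * (|f2'| + P * l) :=
      mul_le_mul_of_nonneg_left (by linarith) (by positivity)
    have h4 : P * (l * l) ≤ P * Q := mul_le_mul_of_nonneg_left hlQ hP0
    linarith
  have hbg : 2 * l * |g2' + c * g1| ≤ (3 + 2 * P) * Q := by
    have h1 : |g2' + c * g1| ≤ |g2'| + |c| * |g1| := by
      rw [← abs_mul]; exact abs_add_le _ _
    have h2 : |c| * |g1| ≤ P * l := mul_le_mul hcabs hg1 (abs_nonneg _) hP0
    have h3 : 2 * (l : ℤ) * |g2' + c * g1| ≤ 2 * l * (|g2'| + P * l) :=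
      mul_le_mul_of_nonneg_left (by linarith) (by positivity)
    have h4 : P * (l * l) ≤ P * Q := mul_le_mul_of_nonneg_left hlQ hP0
    linarith
  rcases lt_or_gt_of_ne hg_ne with hneg | hpos
  · refine ⟨-(f2' + c * f1), -(g2' + c * g1), by linarith, hc3.neg_left, ?_, ?_, ?_⟩
    · have e : -(g2' + c * g1) * α - -(f2' + c * f1)
          = -((g2' + c * g1) * α - (f2' + c * f1)) := by ring
      rw [e]
      exact (dvd_neg).2 hdvd2
    · rw [abs_neg]; exact hbf
    · rw [abs_neg]; exact hbg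
  · exact ⟨_, _, hpos, hc3, hdvd2, hbf, hbg⟩

open Classical in
/-- For fixed `1 ≤ g ≤ X` at most `3 X` residues `α` have `g α` within `X` of a multiple of `Q`. -/
theorem card_fixed_g (Q : ℕ) (hQ : 0 < Q) (X : ℕ) (g : ℕ) (hg1 : 1 ≤ g) (hgX : g ≤ X) :
    ((range Q).filter (fun α : ℕ => ∃ f : ℤ, |f| ≤ X ∧ (Q : ℤ) ∣ (g : ℤ) * α - f)).card
      ≤ 3 * X := by
  set h := Nat.gcd g Q with hh
  have hhpos : 0 < h := Nat.gcd_pos_of_pos_left _ hg1
  have hhg : h ≤ g := Nat.gcd_le_left _ hg1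
  obtain ⟨g', hg'⟩ : h ∣ g := Nat.gcd_dvd_left _ _
  obtain ⟨Q', hQ'⟩ : h ∣ Q := Nat.gcd_dvd_right _ _
  have hQ'pos : 0 < Q' := by
    rcases Nat.eq_zero_or_pos Q' with h0 | h0
    · rw [h0, mul_zero] at hQ'; omega
    · exact h0
  have hcop : Nat.Coprime g' Q' := by
    have h1 : Nat.gcd g Q = h * Nat.gcd g' Q' := by
      conv_lhs => rw [hg', hQ']
      exact Nat.gcd_mul_left _ _ _
    rw [← hh] at h1
    exact Nat.eq_of_mul_eq_mul_left hhpos (by rw [mul_one]; exact h1.symm)
  set A := (range Q).filter (fun α : ℕ => ∃ f : ℤ, |f| ≤ X ∧ (Q : ℤ) ∣ (g : ℤ) * α - f) with hA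
  have hex : ∀ α : ℕ, ∃ f : ℤ, α ∈ A → |f| ≤ X ∧ (Q : ℤ) ∣ (g : ℤ) * α - f := by
    intro α
    by_cases hα : α ∈ A
    · obtain ⟨f, hf⟩ := (Finset.mem_filter.1 hα).2
      exact ⟨f, fun _ => hf⟩
    · exact ⟨0, fun h => absurd h hα⟩
  choose F hF using hex
  have hFdvd : ∀ α ∈ A, (h : ℤ) ∣ F α := by
    intro α hα
    have h1 := (hF α hα).2
    have h2 : (h : ℤ) ∣ (g : ℤ) * α - F α :=
      (by rw [hQ']; push_cast; exact Dvd.intro _ rfl : (h : ℤ) ∣ (Q : ℤ)).trans h1
    have h3 : (h : ℤ) ∣ (g : ℤ) * α := by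
      rw [hg']; push_cast; rw [mul_assoc]; exact Dvd.intro _ rfl
    exact (dvd_sub_right h3).1 h2
  set m : ℕ := X / h with hm
  have hcard : A.card ≤ ((Finset.Icc (-(m : ℤ)) m) ×ˢ (range h)).card := by
    apply Finset.card_le_card_of_injOn (fun α => (F α / h, α / Q'))
    · intro α hα
      have hα' : α ∈ A := hα
      simp only [Finset.coe_product, Set.mem_prod, Finset.coe_Icc, Set.mem_Icc, Finset.coe_range,
        Set.mem_Iio]
      refine ⟨?_, ?_⟩
      · obtain ⟨k, hk⟩ := hFdvd α hα'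
        have hb := (hF α hα').1
        have hhz : (0 : ℤ) < h := by exact_mod_cast hhpos
        rw [hk, Int.mul_ediv_cancel_left _ hhz.ne']
        rw [hk, abs_mul, Nat.abs_cast] at hb
        have hk' : |k| ≤ m := by
          rw [hm]
          push_cast
          rw [Int.le_ediv_iff_mul_le hhz]
          linarith
        exact abs_le.1 hk'
      · rw [Nat.div_lt_iff_lt_mul hQ'pos, ← hQ']
        exact Finset.mem_range.1 (Finset.mem_filter.1 hα').1
    · intro α hα β hβ hab
      have hα' : α ∈ A := hα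
      have hβ' : β ∈ A := hβ
      simp only [Prod.mk.injEq] at hab
      obtain ⟨h1, h2⟩ := hab
      have hFeq : F α = F β := by
        rw [← Int.ediv_mul_cancel (hFdvd α hα'), h1, Int.ediv_mul_cancel (hFdvd β hβ')]
      have h3 : (Q : ℤ) ∣ (g : ℤ) * ((α : ℤ) - β) := by
        have := dvd_sub (hF α hα').2 (hF β hβ').2
        rw [hFeq] at this
        have e : (g : ℤ) * ((α : ℤ) - β) = (g : ℤ) * α - F β - ((g : ℤ) * β - F β) := by ring
        rw [e]
        exact this
      have h4 : (Q' : ℤ) ∣ (g' : ℤ) * ((α : ℤ) - β) := by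
        rw [hg', hQ'] at h3
        push_cast at h3
        rw [mul_assoc] at h3
        exact Int.dvd_of_mul_dvd_mul_left (by exact_mod_cast hhpos.ne') h3
      have h5 : (Q' : ℤ) ∣ (α : ℤ) - β := by
        refine IsCoprime.dvd_of_dvd_mul_left ?_ h4
        exact (Nat.isCoprime_iff_coprime.2 hcop).symm
      have h6 : α % Q' = β % Q' := by
        have h7 : (α : ℤ) % Q' = (β : ℤ) % Q' :=
          Int.emod_eq_emod_iff_emod_sub_eq_zero.2 (Int.emod_eq_zero_of_dvd h5)
        exact_mod_cast h7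
      rw [← Nat.div_add_mod α Q', ← Nat.div_add_mod β Q', h6, h2]
  refine hcard.trans ?_
  rw [Finset.card_product, Int.card_Icc, Finset.card_range]
  have e : ((m : ℤ) + 1 - -(m : ℤ)).toNat = 2 * m + 1 := by omega
  rw [e]
  have h8 : m * h ≤ X := Nat.div_mul_le_self X h
  nlinarith

theorem card_ell_le (Q : ℕ) (hQ : 0 < Q) (X : ℕ) (hX : 1 ≤ X) :
    ((range Q).filter (fun α : ℕ => ell Q (α : ℤ) ≤ X)).card ≤ 3 * X ^ 2 := by
  classical
  rcases le_or_gt Q (3 * X ^ 2) with hle | hlt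
  · exact ((Finset.card_filter_le _ _).trans (by rw [Finset.card_range])).trans hle
  have hXQ : X < Q := by nlinarith
  have hsub : (range Q).filter (fun α : ℕ => ell Q (α : ℤ) ≤ X) ⊆
      (Finset.Icc 1 X).biUnion (fun g => (range Q).filter
        (fun α : ℕ => ∃ f : ℤ, |f| ≤ X ∧ (Q : ℤ) ∣ (g : ℤ) * α - f)) := by
    intro α hα
    rw [Finset.mem_filter] at hα
    obtain ⟨f, g, h0, h1, h2, h3⟩ := (short_ell Q hQ (α : ℤ)).mono hα.2
    rw [Finset.mem_biUnion]
    have hg0 : g ≠ 0 := by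
      intro hg0
      rw [hg0, zero_mul, zero_sub, dvd_neg] at h1
      have hf0 : f ≠ 0 := by
        rcases h0 with h | h
        · exact h
        · exact absurd hg0 h
      have := Int.le_of_dvd (abs_pos.2 hf0) ((dvd_abs _ _).2 h1)
      have h4 : (X : ℤ) < Q := by exact_mod_cast hXQ
      linarith
    refine ⟨g.natAbs, ?_, ?_⟩
    · rw [Finset.mem_Icc]
      constructor
      · exact Int.natAbs_pos.2 hg0
      · have : (g.natAbs : ℤ) ≤ X := by rw [Int.natCast_natAbs]; exact h3
        exact_mod_cast this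
    · rw [Finset.mem_filter]
      refine ⟨hα.1, ?_⟩
      rcases abs_choice g with hc | hc
      · refine ⟨f, h2, ?_⟩
        rw [Int.natCast_natAbs, hc]
        exact h1
      · refine ⟨-f, by rw [abs_neg]; exact h2, ?_⟩
        rw [Int.natCast_natAbs, hc]
        have e : -g * (α : ℤ) - -f = -(g * α - f) := by ring
        rw [e]
        exact dvd_neg.2 h1
  calc _ ≤ _ := Finset.card_le_card hsub
    _ ≤ ∑ g ∈ Finset.Icc 1 X, _ := Finset.card_biUnion_le
    _ ≤ ∑ g ∈ Finset.Icc 1 X, 3 * X := by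
      apply Finset.sum_le_sum
      intro g hg
      rw [Finset.mem_Icc] at hg
      exact card_fixed_g Q hQ X g hg.1 hg.2
    _ = 3 * X ^ 2 := by
      rw [Finset.sum_const, Nat.card_Icc, smul_eq_mul, Nat.add_sub_cancel]
      ring

theorem sum_val (N n : ℕ) (F : ℕ → ℝ) :
    ∑ a : Fin n → Fin N, F (val N n a) = ∑ α ∈ range (N ^ n), F α := by
  rw [Finset.sum_range]
  apply Fintype.sum_equiv finFunctionFinEquiv
  intro a
  rw [finFunctionFinEquiv_apply]
  rfl

theorem ell_le_M (N n : ℕ) (hN : 2 ≤ N) (α : ℤ) : ell (N ^ n) α ≤ M N n α := by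
  obtain ⟨f, g, h0, _, h1, h2, h3⟩ := good_M N n α
  apply ell_le
  refine ⟨f, g, Or.inr h0.ne', ?_, h2, h3⟩
  push_cast
  exact h1

theorem ell_mul_M_le (N n : ℕ) (hN : 2 ≤ N) (α : ℤ) :
    2 * (ell (N ^ n) α : ℝ) * (M N n α : ℝ) ≤ (3 + 2 ^ N.primeFactors.card) * (N : ℝ) ^ n := by
  obtain ⟨f, g, h0, h1, h2, h3, h4⟩ := exists_good N n hN α
  have hgood : GoodLe N n α (max |f| |g|).toNat := by
    refine ⟨f, g, h0, h1, h2, ?_, ?_⟩
    · rw [Int.toNat_of_nonneg (le_max_of_le_left (abs_nonneg _))]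
      exact le_max_left _ _
    · rw [Int.toNat_of_nonneg (le_max_of_le_left (abs_nonneg _))]
      exact le_max_right _ _
  have h5 := M_le hgood
  have h6 : (M N n α : ℤ) ≤ max |f| |g| := by
    have : (M N n α : ℤ) ≤ ((max |f| |g|).toNat : ℤ) := by exact_mod_cast h5
    rwa [Int.toNat_of_nonneg (le_max_of_le_left (abs_nonneg _))] at this
  have h7 : 2 * (ell (N ^ n) α : ℤ) * (M N n α : ℤ) ≤ (3 + 2 ^ N.primeFactors.card) * (N : ℤ) ^ n := by
    refine (mul_le_mul_of_nonneg_left h6 (by positivity)).trans ?_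
    rcases max_choice |f| |g| with h | h
    · rw [h]; exact h3
    · rw [h]; exact h4
  exact_mod_cast h7

/-- **Average `N`-adic complexity of finite sequences.** For all `N ≥ 2` and all `n`, the minimum
defining the complexity of each finite sequence is attained and finite, and
`n/2 - (1 + log 3)/(2 log N) ≤ E_n^fin ≤ n/2 + ((1 + log 3)/2 + log ((2^ω(N) + 3)/2)) / log N`. -/
theorem result (N n : ℕ) (hN : 2 ≤ N) :
    (∀ a : Fin n → Fin N, (∃ b : ℕ → Fin N, (∀ i : Fin n, b i = a i) ∧ lam N b = lamFin N n a) ∧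
      ∃ x : ℝ, lamFin N n a = (x : EReal)) ∧
    (n : ℝ) / 2 - (1 + Real.log 3) / 2 / Real.log N ≤ Efin N n ∧
    Efin N n ≤ (n : ℝ) / 2 +
      ((1 + Real.log 3) / 2 + Real.log ((2 ^ N.primeFactors.card + 3) / 2)) / Real.log N := by
  refine ⟨fun a => ⟨(lamFin_spec N n hN a).1, _, (lamFin_spec N n hN a).2⟩, ?_⟩
  have hN1 : (1 : ℝ) < N := by exact_mod_cast (by omega : 1 < N)
  have hlogN : 0 < Real.log N := Real.log_pos hN1
  have hQ : 0 < N ^ n := by positivity
  have hQr : (0 : ℝ) < (N : ℝ) ^ n := by positivity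
  have hE : Efin N n = (∑ α ∈ range (N ^ n), Real.log (M N n (α : ℤ))) / Real.log N / (N : ℝ) ^ n := by
    unfold Efin
    congr 1
    rw [Finset.sum_div, ← sum_val N n (fun α => Real.log (M N n (α : ℤ)) / Real.log N)]
    apply Finset.sum_congr rfl
    intro a _
    rw [(lamFin_spec N n hN a).2, EReal.toReal_coe]
    rfl
  have hell := sum_log_ge (fun α : ℕ => ell (N ^ n) (α : ℤ)) (range (N ^ n))
    (by rw [Finset.card_range]; exact hQ) (fun α _ => ell_pos _ hQ _)
    (fun X hX => card_ell_le _ hQ X hX)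
  rw [Finset.card_range] at hell
  have hlogQ : Real.log ((N ^ n : ℕ) : ℝ) = n * Real.log N := by
    push_cast
    rw [Real.log_pow]
  rw [hlogQ] at hell
  push_cast at hell
  have hellpos : ∀ α : ℕ, (0 : ℝ) < ell (N ^ n) (α : ℤ) := fun α => by
    exact_mod_cast ell_pos _ hQ _
  have hMpos : ∀ α : ℕ, (0 : ℝ) < M N n (α : ℤ) := fun α => by
    exact_mod_cast M_pos N n hN _
  have hlow : ∑ α ∈ range (N ^ n), Real.log (ell (N ^ n) (α : ℤ))
      ≤ ∑ α ∈ range (N ^ n), Real.log (M N n (α : ℤ)) := by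
    apply Finset.sum_le_sum
    intro α _
    apply Real.log_le_log (hellpos α)
    exact_mod_cast ell_le_M N n hN _
  have hup : ∑ α ∈ range (N ^ n), Real.log (M N n (α : ℤ)) ≤
      (N : ℝ) ^ n * (Real.log ((2 ^ N.primeFactors.card + 3) / 2) + n * Real.log N)
        - ∑ α ∈ range (N ^ n), Real.log (ell (N ^ n) (α : ℤ)) := by
    have h1 : (N : ℝ) ^ n * (Real.log ((2 ^ N.primeFactors.card + 3) / 2) + n * Real.log N)
        = ∑ α ∈ range (N ^ n), (Real.log ((2 ^ N.primeFactors.card + 3) / 2) + n * Real.log N) := by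
      rw [Finset.sum_const, Finset.card_range, nsmul_eq_mul]
      push_cast
      ring
    rw [h1, ← Finset.sum_sub_distrib]
    apply Finset.sum_le_sum
    intro α _
    have h2 := ell_mul_M_le N n hN (α : ℤ)
    have h3 : (M N n (α : ℤ) : ℝ) * ell (N ^ n) (α : ℤ)
        ≤ (2 ^ N.primeFactors.card + 3) / 2 * (N : ℝ) ^ n := by linarith
    have h4 := Real.log_le_log (mul_pos (hMpos α) (hellpos α)) h3
    rw [Real.log_mul (hMpos α).ne' (hellpos α).ne', Real.log_mul (by positivity) hQr.ne',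
      Real.log_pow] at h4
    linarith
  rw [hE]
  constructor
  · rw [le_div_iff₀ hQr, le_div_iff₀ hlogN]
    refine le_trans (le_of_eq ?_) (hell.trans hlow)
    field_simp
    ring
  · rw [div_le_iff₀ hQr, div_le_iff₀ hlogN]
    refine (hup.trans (sub_le_sub_left hell _)).trans (le_of_eq ?_)
    field_simp
    ring

end Pool.Agent.Results.MP_68df70_lc.AverageFinite
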